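import Pool.Agent.TH493.VG.Count

/-!
# MP_af711c_co: the number of visibility graphs of simple polygons

`N n` is the number of isomorphism classes of visibility graphs of simple polygons with `n`
vertices (file `Pool/Agent/H124R2/Vis/Defs.lean`). We show `log₂ N(n) = Θ(n log n)`.

* Lower bound (`Pool/Agent/TH493/VG/{Mono,Fam,Count}.lean`): a polygon between two zigzag graphs.
  The `i`-th of `m` valleys of the lower graph can be shaped such that its bottom sees an arbitrary
  number `l i ≤ m` of `m` targets on the left and an arbitrary number `r i ≤ m` of `m` targets on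
  the right. This gives `(m + 1) ^ (2 m) ≤ N(n) * n ^ m * 4 ^ n` for `n = 8 m + p + 4`.
* Upper bound (`Pool/Agent/TH493/VG/Upper.lean`): visibility is determined by the signs of
  quadratic forms of the coordinates, and a Warren type bound.
-/

set_option autoImplicit false

namespace Pool.Agent.Results.MP_af711c_co.GrowthRate

open Vis124

/-- `log₂ N(n)` is of order `n log₂ n`. -/
theorem result : ∀ n : ℕ, 2 ^ 80 ≤ n →
    (1 / 32 : ℝ) * (n * Real.logb 2 n) ≤ Real.logb 2 (N n) ∧
      Real.logb 2 (N n) ≤ 11 * (n * Real.logb 2 n) :=
  fun _ hn => ⟨Pool.Agent.TH493.VG.lower_log hn, Pool.Agent.TH493.VG.upper_log hn⟩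

end Pool.Agent.Results.MP_af711c_co.GrowthRate
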